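import Pool.Agent.MP_ce0b4e_ag.FamScheme
import Pool.Agent.MP_ce0b4e_ag.Compare

universe u

open AlgebraicGeometry CategoryTheory

namespace Pool.Agent.KltOpen

/-- Every closed fibre of the family, in the form used below. -/
lemma fibre_data {k : Type u} [Field k] [IsAlgClosed k] [CharZero k] (t : TT k)
    (ht : IsClosed {t}) :
    KltType.IsVariety ((fX k).fiberι t ≫ fX k ≫ gT k) ∧
      ∀ x : (fX k).fiber t, IsIntegrallyClosed (((fX k).fiber t).presheaf.stalk x) := by
  obtain ⟨c, hc⟩ := exists_ptT t ht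
  obtain ⟨e, he⟩ := exists_fibre_iso t ht c hc
  have hv := isVariety_of_iso e (sX c) (isVariety_sX c)
  refine ⟨by rw [he]; exact hv.convert, ?_⟩
  have := hv.integral
  have : IsAffine ((fX k).fiber t) := IsAffine.of_isIso e.hom
  obtain ⟨φ, hφ⟩ := exists_ringEquiv c e
  exact isIntegrallyClosed_stalk (e.hom ≫ sX c) φ hφ

lemma fibre_zero {k : Type u} [Field k] [IsAlgClosed k] [CharZero k] :
    KltType.IsKltType ((fX k).fiberι (clT 0) ≫ fX k ≫ gT k) := by
  obtain ⟨e, he⟩ := exists_fibre_iso (clT (0 : k)) (isClosed_clT 0) 0 (point_clT 0)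
  have hv := isVariety_of_iso e (sX 0) (isVariety_sX 0)
  have := hv.integral
  have : IsAffine ((fX k).fiber (clT 0)) := IsAffine.of_isIso e.hom
  obtain ⟨φ, hφ⟩ := exists_ringEquiv 0 e
  rw [he, cmp_isKltType]
  exact isKltType_zero (e.hom ≫ sX 0) φ hφ

lemma fibre_ne {k : Type u} [Field k] [IsAlgClosed k] [CharZero k] {c : k} (hc : c ≠ 0) :
    ¬ KltType.IsKltType ((fX k).fiberι (clT c) ≫ fX k ≫ gT k) := by
  obtain ⟨e, he⟩ := exists_fibre_iso (clT c) (isClosed_clT c) c (point_clT c)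
  have hv := isVariety_of_iso e (sX c) (isVariety_sX c)
  have := hv.integral
  have : IsAffine ((fX k).fiber (clT c)) := IsAffine.of_isIso e.hom
  obtain ⟨φ, hφ⟩ := exists_ringEquiv c e
  rw [he, cmp_isKltType]
  exact not_isKltType hc (e.hom ≫ sX c) φ hφ

end Pool.Agent.KltOpen

open Pool.Agent Pool.Agent.KltOpen

/-- Being of klt type is not an open condition on the closed fibres of a flat family of
varieties, over any algebraically closed field of characteristic zero, even if all closed fibres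
are normal varieties. -/
theorem Pool.Agent.Results.MP_ce0b4e_ag.KltTypeNotOpen.result (k : Type u) [Field k]
    [IsAlgClosed k] [CharZero k] :
    ∃ (T 𝒳 : Scheme.{u}) (g : T ⟶ Spec (.of k)) (f : 𝒳 ⟶ T),
      KltType.IsVariety g ∧ Flat f ∧ LocallyOfFiniteType f ∧ QuasiCompact f ∧ Surjective f ∧
      (∀ t : T, IsClosed {t} → KltType.IsVariety (f.fiberι t ≫ f ≫ g) ∧
        ∀ x : f.fiber t, IsIntegrallyClosed ((f.fiber t).presheaf.stalk x)) ∧
      ∃ t₀ : T, IsClosed {t₀} ∧ KltType.IsKltType (f.fiberι t₀ ≫ f ≫ g) ∧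
        ∀ U : T.Opens, t₀ ∈ U →
          ∃ t ∈ U, IsClosed {t} ∧ ¬ KltType.IsKltType (f.fiberι t ≫ f ≫ g) := by
  refine ⟨TT k, XX k, gT k, fX k, isVariety_gT.convert, inferInstance, inferInstance, ?_,
    inferInstance, fibre_data, clT 0, isClosed_clT 0, fibre_zero, fun U hU => ?_⟩
  · rw [fX]; infer_instance
  · have : Infinite k := IsAlgClosed.instInfinite
    obtain ⟨c, hc, hcU⟩ := exists_clT_mem U hU
    exact ⟨clT c, hcU, isClosed_clT c, fibre_ne hc⟩
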